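import Mathlib

set_option autoImplicit false

namespace Pool.Agent.Results.MP_f0ff61_co.Sand

abbrev V (r : ℕ) := Fin r → ZMod 2

/-- A list of nonzero vectors spanning the space, with multiplicities of gcd one. -/
def Gen {r : ℕ} (M : List (V r)) : Prop :=
  (0 : V r) ∉ M ∧ Submodule.span (ZMod 2) {v | v ∈ M} = ⊤ ∧
    Finset.univ.gcd (fun v : V r => M.count v) = 1

/-- Laplacian of the Cayley multigraph. -/
def lap {r : ℕ} (M : List (V r)) : Matrix (V r) (V r) ℤ := fun u w =>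
  if u = w then (M.length : ℤ) else -((M.countP fun v => u + v = w : ℕ) : ℤ)

/-- Cokernel of an integer matrix. -/
def Coker {ι : Type} [Fintype ι] (L : Matrix ι ι ℤ) : Type :=
  (ι → ℤ) ⧸ LinearMap.range L.mulVecLin

instance {ι : Type} [Fintype ι] (L : Matrix ι ι ℤ) : AddCommGroup (Coker L) :=
  Submodule.Quotient.addCommGroup _

/-- The sandpile group: torsion subgroup of the cokernel of the Laplacian. -/
def K {r : ℕ} (M : List (V r)) : AddSubgroup (Coker (lap M)) := AddCommGroup.torsion _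

/-- The eigenvalue indexed by `u`. -/
def eig {r : ℕ} (M : List (V r)) (u : V r) : ℕ := 2 * M.countP fun v => u ⬝ᵥ v = 1

def enc (v : V 4) : ℕ := (v 0).val + 2 * (v 1).val + 4 * (v 2).val + 8 * (v 3).val

def MA : List (V 4) := [![1,0,0,0], ![0,1,0,0], ![0,0,1,0], ![0,1,1,0], ![1,1,1,0], ![0,0,0,1],
  ![0,0,0,1]]
def MB : List (V 4) := [![1,0,0,0], ![0,1,0,0], ![0,0,1,0], ![0,0,0,1], ![0,1,1,1], ![1,1,1,1],
  ![1,1,1,1]]

theorem sum_enc (f : ℕ → ℤ) : ∑ v : V 4, f (enc v) = ((List.range 16).map f).sum := by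
  have h : (Finset.univ : Finset (V 4)).val.map enc = (List.range 16 : Multiset ℕ) := by
    decide +kernel
  have : ∑ v : V 4, f (enc v) = (((Finset.univ : Finset (V 4)).val.map enc).map f).sum := by
    rw [Multiset.map_map]; rfl
  rw [this, h]; simp

def tl (a : List ℕ) (i j : ℕ) : ℤ := if i = j then 7 else -((a.getD (i ^^^ j) 0 : ℕ) : ℤ)
def la : List ℕ := [0,1,1,0,1,0,1,1,2,0,0,0,0,0,0,0]
def lb : List ℕ := [0,1,1,0,1,0,0,0,1,0,0,0,0,0,1,2]
theorem lapA : ∀ u w, lap MA u w = tl la (enc u) (enc w) := by decide +kernel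
theorem lapB : ∀ u w, lap MB u w = tl lb (enc u) (enc w) := by decide +kernel

def tA (i j : ℕ) : ℤ :=
  ((343283865094207649782245273033083645943565222747614937095 >>> (16 * i + j) % 2 : ℕ) : ℤ)
def tT (i j : ℕ) : ℤ :=
  ((3351951982680758559299612619080591272367385075494027659222179660402366305819055136526455105206732987848542301217653850086567066820901101618371987171717120
    >>> (2 * (16 * i + j)) % 4 : ℕ) : ℤ)
def A : Matrix (V 4) (V 4) ℤ := fun u w => tA (enc u) (enc w)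
def T : Matrix (V 4) (V 4) ℤ := fun u w => tT (enc u) (enc w)

theorem c1 : ∀ u w : V 4,
    (4 : ℤ) ∣ ((List.range 16).map fun k => tl la (enc u) k * tT k (enc w)).sum := by
  decide +kernel
theorem c2 : ∀ u w : V 4, (2 : ℤ) ∣ (if u = w then 1 else 0) - tT (enc u) (enc w) -
    ((List.range 16).map fun k => tA (enc u) k * tl la k (enc w)).sum := by
  decide +kernel

theorem exC : ∃ C : Matrix (V 4) (V 4) ℤ, lap MA * T = (4 : ℤ) • C := by
  choose C hC using c1
  refine ⟨C, Matrix.ext fun u w => ?_⟩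
  rw [Matrix.smul_apply, smul_eq_mul, ← hC, ← sum_enc, Matrix.mul_apply]
  exact Finset.sum_congr rfl fun x _ => by rw [lapA]; rfl

theorem exB : ∃ B : Matrix (V 4) (V 4) ℤ, 1 = T + A * lap MA + (2 : ℤ) • B := by
  choose B hB using c2
  refine ⟨B, Matrix.ext fun u w => ?_⟩
  have h : (A * lap MA) u w = ((List.range 16).map fun k => tA (enc u) k * tl la k (enc w)).sum := by
    rw [← sum_enc, Matrix.mul_apply]
    exact Finset.sum_congr rfl fun x _ => by rw [lapA]; rfl
  rw [Matrix.add_apply, Matrix.add_apply, Matrix.smul_apply, smul_eq_mul, ← hB, h, Matrix.one_apply]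
  unfold T; ring

theorem propA (k : K MA) (hk : (2 : ℕ) • k = 0) : ∃ y : K MA, k = (2 : ℕ) • y := by
  obtain ⟨C, hC⟩ := exC
  obtain ⟨B, hB⟩ := exB
  obtain ⟨k, hkt⟩ := k
  obtain ⟨x, rfl⟩ := Submodule.Quotient.mk_surjective _ k
  have h1 : (2 : ℕ) • (Submodule.Quotient.mk x :
      (V 4 → ℤ) ⧸ LinearMap.range (lap MA).mulVecLin) = 0 := congrArg Subtype.val hk
  rw [← Submodule.Quotient.mk_smul, Submodule.Quotient.mk_eq_zero] at h1
  obtain ⟨z, hz⟩ := h1
  rw [Matrix.mulVecLin_apply] at hz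
  have h4 : (lap MA).mulVec (T.mulVec z) = (4 : ℤ) • C.mulVec z := by
    rw [Matrix.mulVec_mulVec, hC, Matrix.smul_mulVec]
  have hz2 : (lap MA).mulVec z = (2 : ℤ) • x := by rw [hz]; ext i; simp
  have h5 : z = T.mulVec z + (2 : ℤ) • (A.mulVec x + B.mulVec z) := by
    have := congrArg (fun X => X.mulVec z) hB
    simp only [Matrix.one_mulVec, Matrix.add_mulVec, Matrix.smul_mulVec] at this
    rw [← Matrix.mulVec_mulVec, hz2, Matrix.mulVec_smul] at this
    rw [smul_add, ← add_assoc]; exact this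
  have h6 : x = (2 : ℤ) • C.mulVec z + (lap MA).mulVec (A.mulVec x + B.mulVec z) := by
    have := congrArg (lap MA).mulVec h5
    rw [Matrix.mulVec_add, Matrix.mulVec_smul, h4, hz2] at this
    ext i
    have := congrFun this i
    simp only [Pi.add_apply, Pi.smul_apply, smul_eq_mul] at this ⊢
    linarith
  refine ⟨⟨Submodule.Quotient.mk (C.mulVec z), ?_⟩, Subtype.ext ?_⟩
  · refine isOfFinAddOrder_iff_nsmul_eq_zero.2 ⟨4, by norm_num, ?_⟩
    change (4 : ℕ) • (Submodule.Quotient.mk (C.mulVec z) :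
      (V 4 → ℤ) ⧸ LinearMap.range (lap MA).mulVecLin) = 0
    rw [← Submodule.Quotient.mk_smul, Submodule.Quotient.mk_eq_zero]
    exact ⟨T.mulVec z, by rw [Matrix.mulVecLin_apply, h4]; ext i; simp⟩
  · change Submodule.Quotient.mk x = (2 : ℕ) • (Submodule.Quotient.mk (C.mulVec z) :
      (V 4 → ℤ) ⧸ LinearMap.range (lap MA).mulVecLin)
    rw [← Submodule.Quotient.mk_smul, Submodule.Quotient.eq]
    refine ⟨A.mulVec x + B.mulVec z, ?_⟩
    rw [Matrix.mulVecLin_apply]
    ext i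
    have := congrFun h6 i
    rw [Pi.sub_apply, Pi.smul_apply, nsmul_eq_mul, Nat.cast_ofNat]
    rw [Pi.add_apply, Pi.smul_apply, smul_eq_mul] at this
    linarith

def tz (i : ℕ) : ℤ := ((5197 >>> i % 2 : ℕ) : ℤ)
def tp (i : ℕ) : ℤ := ((16663 >>> i % 2 : ℕ) : ℤ)
def tx (i : ℕ) : ℤ := [3, -1, 1, 2, -2, -1, 3, -1, -2, -1, 3, -1, 2, -2, -2, -1].getD i 0

theorem d1 : ∀ u : V 4,
    ((List.range 16).map fun k => tl lb (enc u) k * tz k).sum = 2 * tx (enc u) := by decide +kernel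
theorem d2 : ∀ w : V 4,
    (2 : ℤ) ∣ ((List.range 16).map fun k => tp k * tl lb k (enc w)).sum := by decide +kernel
theorem d3 : ¬ (2 : ℤ) ∣ ((List.range 16).map fun k => tp k * tx k).sum := by decide +kernel

theorem propB : ∃ k : K MB, (2 : ℕ) • k = 0 ∧ ∀ y : K MB, k ≠ (2 : ℕ) • y := by
  have h0 : (2 : ℕ) • (Submodule.Quotient.mk (fun u => tx (enc u)) :
      (V 4 → ℤ) ⧸ LinearMap.range (lap MB).mulVecLin) = 0 := by
    rw [← Submodule.Quotient.mk_smul, Submodule.Quotient.mk_eq_zero]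
    refine ⟨fun u => tz (enc u), ?_⟩
    ext u
    rw [Matrix.mulVecLin_apply, Pi.smul_apply, nsmul_eq_mul, Nat.cast_ofNat, ← d1, ← sum_enc]
    simp only [Matrix.mulVec, dotProduct, lapB]
  refine ⟨⟨_, isOfFinAddOrder_iff_nsmul_eq_zero.2 ⟨2, by norm_num, h0⟩⟩, Subtype.ext h0, ?_⟩
  rintro ⟨y, hy⟩ h
  obtain ⟨y, rfl⟩ := Submodule.Quotient.mk_surjective _ y
  have h1 : (Submodule.Quotient.mk (fun u => tx (enc u)) :
      (V 4 → ℤ) ⧸ LinearMap.range (lap MB).mulVecLin) = (2 : ℕ) • Submodule.Quotient.mk y :=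
    congrArg Subtype.val h
  rw [← Submodule.Quotient.mk_smul, Submodule.Quotient.eq] at h1
  obtain ⟨w, hw⟩ := h1
  rw [Matrix.mulVecLin_apply] at hw
  apply d3
  rw [← sum_enc]
  have h2 : (2 : ℤ) ∣ (fun u => tp (enc u)) ⬝ᵥ (lap MB).mulVec w := by
    rw [Matrix.dotProduct_mulVec]
    refine Finset.dvd_sum fun v _ => Dvd.dvd.mul_right ?_ _
    have := d2 v
    rw [← sum_enc] at this
    have e : Matrix.vecMul (fun u => tp (enc u)) (lap MB) v =
        ∑ x : V 4, tp (enc x) * tl lb (enc x) (enc v) := by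
      simp only [Matrix.vecMul, dotProduct, lapB]
    rw [e]; exact this
  rw [hw, dotProduct_sub, dotProduct_smul, nsmul_eq_mul, Nat.cast_ofNat] at h2
  exact (dvd_sub_left (Dvd.intro _ rfl)).1 h2

theorem span_top (M : List (V 4)) (h0 : ![1,0,0,0] ∈ M) (h1 : ![0,1,0,0] ∈ M)
    (h2 : ![0,0,1,0] ∈ M) (h3 : ![0,0,0,1] ∈ M) :
    Submodule.span (ZMod 2) {v | v ∈ M} = ⊤ := by
  have e : ∀ v : V 4, v = v 0 • ![1,0,0,0] + v 1 • ![0,1,0,0] + v 2 • ![0,0,1,0] +
      v 3 • ![0,0,0,1] := by decide +kernel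
  refine Submodule.eq_top_iff'.2 fun v => ?_
  rw [e v]
  exact add_mem (add_mem (add_mem (Submodule.smul_mem _ _ (Submodule.subset_span h0))
    (Submodule.smul_mem _ _ (Submodule.subset_span h1)))
    (Submodule.smul_mem _ _ (Submodule.subset_span h2)))
    (Submodule.smul_mem _ _ (Submodule.subset_span h3))

theorem result : ∃ (r : ℕ) (M M' : List (V r)), 1 ≤ r ∧ Gen M ∧ Gen M' ∧
    M.sum ≠ 0 ∧ M'.sum ≠ 0 ∧ Set.range (eig M) = Set.range (eig M') ∧
    Finset.univ.val.map (eig M) = Finset.univ.val.map (eig M') ∧ IsEmpty (K M ≃+ K M') := by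
  have he : Finset.univ.val.map (eig MA) = Finset.univ.val.map (eig MB) := by decide +kernel
  refine ⟨4, MA, MB, by norm_num, ⟨by decide +kernel, span_top _ (by decide +kernel)
    (by decide +kernel) (by decide +kernel) (by decide +kernel), by decide +kernel⟩,
    ⟨by decide +kernel, span_top _ (by decide +kernel) (by decide +kernel) (by decide +kernel)
    (by decide +kernel), by decide +kernel⟩, by decide +kernel, by decide +kernel, ?_, he, ⟨fun e => ?_⟩⟩
  · ext n
    have := Multiset.mem_map (f := eig MA) (b := n) (s := Finset.univ.val)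
    rw [he, Multiset.mem_map] at this
    simpa using this.symm
  · obtain ⟨k, hk, hk'⟩ := propB
    obtain ⟨y, hy⟩ := propA (e.symm k) (by rw [← map_nsmul, hk, map_zero])
    exact hk' (e y) (by rw [← map_nsmul, ← hy, e.apply_symm_apply])

end Pool.Agent.Results.MP_f0ff61_co.Sand
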